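import Pool.Agent.Helper29.Mstd.Final

set_option autoImplicit false

open Filter Topology

namespace Pool.Agent.Results.MP_7c207a_co.MissingDifferencesOrder

open Pool.Agent.Helper29.MissingDifferences

/-- **Ordering of the limiting distribution of missing differences.** The limits `ℓ k` of the
probabilities `P n k` exist and
`ℓ 4 > ℓ 2 > ℓ 6 > ℓ 0 > ℓ 8 > ℓ 10 > ℓ 12 > ⋯`. -/
theorem result : ∃ ℓ : ℕ → ℝ,
    (∀ k, Tendsto (fun n => P n k) atTop (𝓝 (ℓ k))) ∧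
    ℓ 4 > ℓ 2 ∧ ℓ 2 > ℓ 6 ∧ ℓ 6 > ℓ 0 ∧ ℓ 0 > ℓ 8 ∧
    ∀ k ≥ 4, ℓ (2 * k + 2) < ℓ (2 * k) := by
  refine ⟨Helper29.Mstd.ell, Helper29.Mstd.ell_tendsto, ?_, ?_, ?_, ?_, ?_⟩
  · have h := Helper29.Mstd.q1_lt_q2
    rw [← Helper29.Mstd.ell_even, ← Helper29.Mstd.ell_even] at h
    exact h
  · have h := Helper29.Mstd.q3_lt_q1
    rw [← Helper29.Mstd.ell_even, ← Helper29.Mstd.ell_even] at h
    exact h
  · have h := Helper29.Mstd.q0_lt_q3
    rw [← Helper29.Mstd.ell_even, ← Helper29.Mstd.ell_even] at h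
    exact h
  · have h := Helper29.Mstd.q4_lt_q0
    rw [← Helper29.Mstd.ell_even, ← Helper29.Mstd.ell_even] at h
    exact h
  · intro k hk
    have h := Helper29.Mstd.qq_anti hk
    rw [← Helper29.Mstd.ell_even, ← Helper29.Mstd.ell_even] at h
    exact h

end Pool.Agent.Results.MP_7c207a_co.MissingDifferencesOrder
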